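import Mathlib

/-!
# HG/CHP, HG/TN1: the exponential of a companion matrix (parts that need only Mathlib)
-/

set_option autoImplicit false

open Matrix Polynomial

namespace Pool.Agent.N40.HG

/-- the diagonal of a power of an upper triangular matrix -/
lemma tri_pow {n : ℕ} (M : Matrix (Fin n) (Fin n) ℂ) (hM : M.BlockTriangular id) (k : ℕ) :
    (M ^ k).BlockTriangular id ∧ ∀ i, (M ^ k) i i = (M i i) ^ k := by
  induction k with
  | zero => simp [Matrix.blockTriangular_one]
  | succ k ih =>
    refine ⟨by rw [pow_succ]; exact ih.1.mul hM, fun i => ?_⟩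
    rw [pow_succ, Matrix.mul_apply, Finset.sum_eq_single i, ih.2, pow_succ]
    · intro j _ hj
      rcases lt_or_gt_of_ne hj with h | h
      · rw [ih.1 (i := i) (j := j) h, zero_mul]
      · rw [hM (i := j) (j := i) h, mul_zero]
    · simp

section
attribute [local instance] Matrix.linftyOpNormedRing Matrix.linftyOpNormedAlgebra

/-- the diagonal of the exponential of an upper triangular matrix -/
lemma tri_exp {n : ℕ} (M : Matrix (Fin n) (Fin n) ℂ) (hM : M.BlockTriangular id) (i : Fin n) :
    (NormedSpace.exp M) i i = Complex.exp (M i i) := by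
  have h1 : HasSum (fun k : ℕ => ((k.factorial : ℂ)⁻¹) • M ^ k) (NormedSpace.exp M) :=
    NormedSpace.exp_series_hasSum_exp' (𝕂 := ℂ) M
  have h2 : HasSum (fun k : ℕ => (((k.factorial : ℂ)⁻¹) • M ^ k) i i) (NormedSpace.exp M i i) :=
    Pi.hasSum.1 (Pi.hasSum.1 h1 i) i
  have h3 : HasSum (fun k : ℕ => ((k.factorial : ℂ)⁻¹) • (M i i) ^ k) (NormedSpace.exp (M i i)) :=
    NormedSpace.exp_series_hasSum_exp' (𝕂 := ℂ) (M i i)
  rw [Complex.exp_eq_exp_ℂ]
  refine h2.unique ?_
  convert h3 using 1
  ext k
  rw [Matrix.smul_apply, (tri_pow M hM k).2 i]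

end

/-- the companion matrix -/
noncomputable def cm (n : ℕ) (p : ℂ[X]) : Matrix (Fin n) (Fin n) ℂ := Matrix.of fun i j =>
  if (i : ℕ) + 1 < n then (if (j : ℕ) = i + 1 then 1 else 0) else -(p.coeff j : ℂ)

/-- Newton basis -/
noncomputable def q (l : ℕ → ℂ) : ℕ → ℂ[X]
  | 0 => 1
  | k + 1 => q l k * (X - C (l k))

lemma q_monic (l : ℕ → ℂ) (k : ℕ) : (q l k).Monic ∧ (q l k).natDegree = k := by
  induction k with
  | zero => simp [q]
  | succ k ih =>
    refine ⟨ih.1.mul (monic_X_sub_C _), ?_⟩
    rw [q, Polynomial.Monic.natDegree_mul ih.1 (monic_X_sub_C _), ih.2, natDegree_X_sub_C]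

lemma q_prod (l : ℕ → ℂ) (k : ℕ) : q l k = ∏ i ∈ Finset.range k, (X - C (l i)) := by
  induction k with
  | zero => simp [q]
  | succ k ih => rw [q, Finset.prod_range_succ, ih]

/-- the change of basis -/
noncomputable def Qm (n : ℕ) (l : ℕ → ℂ) : Matrix (Fin n) (Fin n) ℂ := Matrix.of fun i j =>
  (q l i).coeff j

/-- the bidiagonal matrix -/
noncomputable def Bm (n : ℕ) (l : ℕ → ℂ) : Matrix (Fin n) (Fin n) ℂ := Matrix.of fun i j =>
  if (j : ℕ) = i then l i else if (j : ℕ) = i + 1 then 1 else 0

lemma Bm_tri (n : ℕ) (l : ℕ → ℂ) : (Bm n l).BlockTriangular id := by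
  intro i j h
  have h' : (j : ℕ) < i := h
  simp only [Bm, Matrix.of_apply]
  rw [if_neg (by omega), if_neg (by omega)]

lemma Qm_det (n : ℕ) (l : ℕ → ℂ) : (Qm n l).det = 1 := by
  have h : (Qm n l)ᵀ.BlockTriangular id := by
    intro i j h
    have h' : (j : ℕ) < i := h
    simp only [Qm, Matrix.transpose_apply, Matrix.of_apply]
    exact coeff_eq_zero_of_natDegree_lt (by rw [(q_monic l j).2]; exact h')
  rw [← Matrix.det_transpose, Matrix.det_of_isUpperTriangular h]
  refine Finset.prod_eq_one fun i _ => ?_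
  simp only [Qm, Matrix.transpose_apply, Matrix.of_apply]
  have := (q_monic l i).1.coeff_natDegree
  rwa [(q_monic l i).2] at this

lemma QA (n : ℕ) (l : ℕ → ℂ) : Qm n l * cm n (q l n) = Bm n l * Qm n l := by
  ext i j
  have hL : (Qm n l * cm n (q l n)) i j = (X * q l i).coeff j - (q l i).coeff (n - 1) * (q l n).coeff j := by
    have hn : 0 < n := i.pos
    rw [Matrix.mul_apply]
    have hlast : ∀ k : Fin n, ¬ ((k : ℕ) + 1 < n) ↔ k = ⟨n - 1, by omega⟩ := by
      intro k
      rw [Fin.ext_iff]
      have := k.2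
      simp only
      omega
    have h1 : ∀ k : Fin n, Qm n l i k * cm n (q l n) k j =
        (if (j : ℕ) = k + 1 then (q l i).coeff k else 0) -
        (if k = ⟨n - 1, by omega⟩ then (q l i).coeff k * (q l n).coeff j else 0) := by
      intro k
      simp only [Qm, cm, Matrix.of_apply]
      by_cases hk : (k : ℕ) + 1 < n
      · rw [if_pos hk, if_neg (fun h => (hlast k).2 h hk)]
        by_cases hj : (j : ℕ) = k + 1
        · rw [if_pos hj, if_pos hj, mul_one, sub_zero]
        · rw [if_neg hj, if_neg hj, mul_zero, sub_zero]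
      · rw [if_neg hk, if_pos ((hlast k).1 hk), if_neg (by have := j.2; omega)]
        ring
    rw [Finset.sum_congr rfl fun k _ => h1 k, Finset.sum_sub_distrib, Finset.sum_ite_eq']
    simp only [Finset.mem_univ, if_true]
    congr 1
    rcases hj : (j : ℕ) with _ | j'
    · rw [Polynomial.mul_coeff_zero, coeff_X_zero, zero_mul]
      exact Finset.sum_eq_zero fun k _ => by rw [if_neg (by omega)]
    · rw [Polynomial.coeff_X_mul]
      rw [Finset.sum_eq_single (⟨j', by have := j.2; omega⟩ : Fin n)]
      · simp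
      · intro b _ hb
        rw [if_neg]
        intro h
        apply hb
        rw [Fin.ext_iff]
        simp only
        omega
      · simp
  have hR : (Bm n l * Qm n l) i j = l i * (q l i).coeff j + (if (i : ℕ) + 1 < n then (q l (i + 1)).coeff j else 0) := by
    rw [Matrix.mul_apply]
    have h1 : ∀ k : Fin n, Bm n l i k * Qm n l k j =
        (if k = i then l i * (q l i).coeff j else 0) + (if (k : ℕ) = i + 1 then (q l (i + 1)).coeff j else 0) := by
      intro k
      simp only [Qm, Bm, Matrix.of_apply]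
      by_cases hk : k = i
      · subst hk
        simp
      · rw [if_neg (fun h => hk (Fin.ext h)), if_neg hk, zero_add]
        by_cases hk2 : (k : ℕ) = i + 1
        · rw [if_pos hk2, if_pos hk2, one_mul, hk2]
        · rw [if_neg hk2, if_neg hk2, zero_mul]
    rw [Finset.sum_congr rfl fun k _ => h1 k, Finset.sum_add_distrib, Finset.sum_ite_eq']
    simp only [Finset.mem_univ, if_true]
    congr 1
    by_cases h : (i : ℕ) + 1 < n
    · rw [if_pos h, Finset.sum_eq_single (⟨i + 1, h⟩ : Fin n)]
      · simp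
      · intro b _ hb
        rw [if_neg]
        intro h2
        exact hb (Fin.ext h2)
      · simp
    · rw [if_neg h]
      exact Finset.sum_eq_zero fun k _ => by rw [if_neg (by have := k.2; omega)]
  have hq : X * q l i = q l (i + 1) + C (l i) * q l i := by
    rw [q]; ring
  rw [hL, hR, hq, coeff_add, coeff_C_mul]
  by_cases h : (i : ℕ) + 1 < n
  · have h4 : (q l i).coeff (n - 1) = 0 :=
      coeff_eq_zero_of_natDegree_lt (by rw [(q_monic l i).2]; omega)
    rw [if_pos h, h4]
    ring
  · have h2 : n - 1 = (i : ℕ) := by have := i.2; omega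
    have h3 : (i : ℕ) + 1 = n := by have := i.2; omega
    have h4 : (q l i).coeff (n - 1) = 1 := by
      have := (q_monic l i).1.coeff_natDegree
      rw [h2]
      rwa [(q_monic l i).2] at this
    rw [if_neg h, h4, h3]
    ring

/-- the roots of the characteristic polynomial of `exp (s A)` -/
lemma charpoly_exp (n : ℕ) (l : ℕ → ℂ) (s : ℂ) :
    (NormedSpace.exp (s • cm n (q l n))).charpoly = ∏ i : Fin n, (X - C (Complex.exp (s * l i))) := by
  have hdet : IsUnit (Qm n l).det := by rw [Qm_det]; exact isUnit_one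
  have h1 : cm n (q l n) = (Qm n l)⁻¹ * Bm n l * Qm n l := by
    rw [Matrix.mul_assoc, ← QA, ← Matrix.mul_assoc, Matrix.nonsing_inv_mul _ hdet, Matrix.one_mul]
  have h2 : s • cm n (q l n) = (Qm n l)⁻¹ * (s • Bm n l) * Qm n l := by
    rw [h1, Matrix.mul_smul, Matrix.smul_mul]
  have hu : IsUnit (Qm n l) := (Matrix.isUnit_iff_isUnit_det _).2 hdet
  rw [h2, Matrix.exp_conj' _ _ hu]
  have h3 : ((Qm n l)⁻¹ * NormedSpace.exp (s • Bm n l) * Qm n l).charpoly =
      (NormedSpace.exp (s • Bm n l)).charpoly := by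
    obtain ⟨u, hu⟩ := hu
    have := Matrix.charpoly_units_conj' u (NormedSpace.exp (s • Bm n l))
    rw [hu] at this
    rw [← this, ← hu]
  rw [h3]
  have ht : (s • Bm n l).BlockTriangular id := by
    intro i j h
    rw [Matrix.smul_apply, Bm_tri n l h, smul_zero]
  rw [Matrix.charpoly_of_isUpperTriangular _ ht.exp]
  refine Finset.prod_congr rfl fun i _ => ?_
  rw [tri_exp _ ht]
  simp [Bm]

lemma list_prod (L : List ℂ) : (L.map fun a => X - C a).prod = q (fun i => L.getD i 0) L.length := by
  rw [q_prod, Finset.prod_range, ← List.prod_ofFn]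
  congr 1
  apply List.ext_getElem
  · simp
  · intro i h1 h2
    have h3 : i < L.length := by simpa using h1
    simp only [List.getElem_map, List.getElem_ofFn]
    rw [List.getD_eq_getElem L 0 h3]

/-- an enumeration of the roots -/
lemma enum (n : ℕ) (p : ℂ[X]) (hp : p.Monic) (hn : p.natDegree = n) : ∃ l : ℕ → ℂ, p = q l n := by
  have hs : p.Splits := IsAlgClosed.splits p
  have hc : p.roots.card = n := by rw [← hn]; exact hs.natDegree_eq_card_roots.symm
  have hl : p.roots.toList.length = n := by rw [Multiset.length_toList, hc]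
  refine ⟨fun i => p.roots.toList.getD i 0, ?_⟩
  rw [← hl, ← list_prod]
  have h1 : p = (p.roots.map fun a => X - C a).prod := hs.eq_prod_roots_of_monic hp
  have h2 : (p.roots.map fun a => X - C a).prod = (p.roots.toList.map fun a => X - C a).prod := by
    conv_lhs => rw [← Multiset.coe_toList p.roots]
    rw [Multiset.map_coe, Multiset.prod_coe]
  exact h1.trans h2

end Pool.Agent.N40.HG
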