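import Pool.Agent.N207.HG.Stm2
import Pool.Agent.N530.HG.Exx
import Pool.Agent.N40.HG.Core

/-!
# HG/CHP and HG/TN1 (helper207): characteristic polynomial of `exp (2 π i A)` for a companion matrix `A`,
and finite order when the roots are simple and rational
-/

set_option autoImplicit false

open Matrix Polynomial

namespace Pool.Agent.N40.HG

open Pool.Agent.N207.HG

lemma cmp_eq (n : ℕ) (P : ℝ[X]) : N207.HG.cmp n P = cm n (P.map (algebraMap ℝ ℂ)) := by
  ext i j
  simp [N207.HG.cmp, cm, Polynomial.coeff_map]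

lemma roots_fin (n : ℕ) (f : Fin n → ℂ) : (∏ i : Fin n, (X - C (f i))).roots = Finset.univ.val.map f := by
  have : (∏ i : Fin n, (X - C (f i))) = ((Finset.univ.val.map f).map fun a => X - C a).prod := by
    rw [Multiset.map_map]
    rfl
  rw [this, roots_multiset_prod_X_sub_C]

lemma exp_iff (x r : ℂ) : Complex.exp (2 * Real.pi * Complex.I * x) = Complex.exp (2 * Real.pi * Complex.I * r) ↔
    ∃ m : ℤ, r = x + m := by
  have h0 : (2 * Real.pi * Complex.I : ℂ) ≠ 0 := Complex.two_pi_I_ne_zero
  rw [Complex.exp_eq_exp_iff_exists_int]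
  constructor
  · rintro ⟨k, hk⟩
    refine ⟨-k, ?_⟩
    have h1 : (2 * Real.pi * Complex.I : ℂ) * x = (2 * Real.pi * Complex.I) * (r + k) := by
      rw [hk]; ring
    have h2 := mul_left_cancel₀ h0 h1
    rw [h2]
    push_cast
    ring
  · rintro ⟨m, hm⟩
    refine ⟨-m, ?_⟩
    rw [hm]
    push_cast
    ring

theorem chp : S_CHP := by
  classical
  intro n P hP hn x
  have hm : (P.map (algebraMap ℝ ℂ)).Monic := hP.map _
  have hd : (P.map (algebraMap ℝ ℂ)).natDegree = n := by rw [hP.natDegree_map]; exact hn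
  obtain ⟨l, hl⟩ := enum n _ hm hd
  have h1 : (EX (N207.HG.cmp n P) (2 * Real.pi * Complex.I)).charpoly =
      ∏ i : Fin n, (X - C (Complex.exp (2 * Real.pi * Complex.I * l i))) := by
    rw [EX, cmp_eq, hl]
    exact charpoly_exp n l _
  have h2 : (P.map (algebraMap ℝ ℂ)).roots = Finset.univ.val.map (fun i : Fin n => l i) := by
    rw [hl, q_prod, Finset.prod_range, roots_fin]
  rw [h1, ← Polynomial.count_roots, roots_fin, mu, h2, Multiset.count_map, Multiset.countP_map]
  congr 1
  refine Multiset.filter_congr fun i _ => ?_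
  exact exp_iff x (l i)

theorem tn1 : S_EXP → S_TN1 := by
  classical
  intro hE n P hP hn hr
  have hm : (P.map (algebraMap ℝ ℂ)).Monic := hP.map _
  have hd : (P.map (algebraMap ℝ ℂ)).natDegree = n := by rw [hP.natDegree_map]; exact hn
  have h0 : P.map (algebraMap ℝ ℂ) ≠ 0 := hm.ne_zero
  have hroot : ∀ x ∈ (P.map (algebraMap ℝ ℂ)).roots, Polynomial.aeval x P = 0 := by
    intro x hx
    have := (mem_roots h0).1 hx
    rwa [IsRoot.def, eval_map_algebraMap] at this
  obtain ⟨l, hl⟩ := enum n _ hm hd
  have h2 : (P.map (algebraMap ℝ ℂ)).roots = Finset.univ.val.map (fun i : Fin n => l i) := by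
    rw [hl, q_prod, Finset.prod_range, roots_fin]
  have hnd : (P.map (algebraMap ℝ ℂ)).roots.Nodup := by
    rw [Multiset.nodup_iff_count_le_one]
    intro x
    by_contra hc
    have hc' : 1 < (P.map (algebraMap ℝ ℂ)).roots.count x := by omega
    rw [count_roots] at hc'
    have h3 := (one_lt_rootMultiplicity_iff_isRoot h0).1 hc'
    have h4 : Polynomial.aeval x P = 0 := by
      have := h3.1
      rwa [IsRoot.def, eval_map_algebraMap] at this
    apply (hr x h4).2
    have := h3.2
    rw [derivative_map] at this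
    rwa [IsRoot.def, eval_map_algebraMap] at this
  have hinj : Function.Injective (fun i : Fin n => l i) := by
    rw [h2] at hnd
    intro a b hab
    exact Multiset.inj_on_of_nodup_map hnd a (Finset.mem_univ_val _) b (Finset.mem_univ_val _) hab
  have hmem : ∀ i : Fin n, Polynomial.aeval (l i) P = 0 := by
    intro i
    apply hroot
    rw [h2]
    exact Multiset.mem_map.2 ⟨i, Finset.mem_univ_val _, rfl⟩
  choose r hrr using fun i : Fin n => (hr _ (hmem i)).1
  refine ⟨∏ i, (r i).den, Finset.prod_pos fun i _ => (r i).den_pos, ?_⟩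
  set N := ∏ i, (r i).den with hN
  set E := EX (N207.HG.cmp n P) (2 * Real.pi * Complex.I) with hEd
  -- eigenvectors
  have heig : ∀ i : Fin n, N207.HG.cmp n P *ᵥ nu n (l i) = l i • nu n (l i) := by
    intro i
    set x := l i with hx
    ext a
    have hn0 : 0 < n := a.pos
    rw [Pi.smul_apply, smul_eq_mul, Matrix.mulVec, dotProduct]
    by_cases ha : (a : ℕ) + 1 < n
    · rw [Finset.sum_eq_single (⟨a + 1, ha⟩ : Fin n)]
      · simp only [N207.HG.cmp, Matrix.of_apply, nu]
        rw [if_pos ha, if_true, pow_succ]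
        ring
      · intro b _ hb
        simp only [N207.HG.cmp, Matrix.of_apply]
        rw [if_pos ha, if_neg (fun h => hb (Fin.ext h)), zero_mul]
      · simp
    · have h5 : ∑ j : Fin n, N207.HG.cmp n P a j * nu n x j = - ∑ j ∈ Finset.range n, (P.coeff j : ℂ) * x ^ j := by
        rw [Finset.sum_range, ← Finset.sum_neg_distrib]
        refine Finset.sum_congr rfl fun j _ => ?_
        simp only [N207.HG.cmp, Matrix.of_apply, nu]
        rw [if_neg ha]
        ring
      rw [h5]
      have h6 := hmem i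
      rw [aeval_eq_sum_range, hn, Finset.sum_range_succ] at h6
      have h7 : P.coeff n = 1 := by rw [← hn]; exact hP.coeff_natDegree
      rw [h7, one_smul] at h6
      have h8 : ∑ j ∈ Finset.range n, (P.coeff j : ℂ) * x ^ j = - x ^ n := by
        rw [← hx] at h6
        have : ∑ j ∈ Finset.range n, P.coeff j • x ^ j = - x ^ n := by linear_combination h6
        rw [← this]
        refine Finset.sum_congr rfl fun j _ => ?_
        rw [Complex.real_smul]
      rw [h8, neg_neg]
      have h9 : n = (a : ℕ) + 1 := by have := a.2; omega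
      simp only [nu]
      conv_lhs => rw [h9]
      rw [pow_succ]
      ring
  have hpow : ∀ (i : Fin n) (k : ℕ), (E ^ k) *ᵥ nu n (l i) =
      (Complex.exp (2 * Real.pi * Complex.I * l i)) ^ k • nu n (l i) := by
    intro i k
    induction k with
    | zero => simp
    | succ k ih =>
      rw [pow_succ, ← Matrix.mulVec_mulVec, hEd,
        (hE n (N207.HG.cmp n P)).2.2.2.2.1 (l i) (nu n (l i)) (heig i), ← hEd, Matrix.mulVec_smul, ih, smul_smul, pow_succ]
      ring_nf
  have hone : ∀ i : Fin n, (Complex.exp (2 * Real.pi * Complex.I * l i)) ^ N = 1 := by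
    intro i
    rw [← Complex.exp_nat_mul, Complex.exp_eq_one_iff]
    have hdv : (r i).den ∣ N := Finset.dvd_prod_of_mem _ (Finset.mem_univ i)
    obtain ⟨c, hc⟩ := hdv
    refine ⟨(r i).num * c, ?_⟩
    have h10 : (l i) * ((r i).den : ℂ) = ((r i).num : ℂ) := by
      rw [hrr i]
      have := Rat.mul_den_eq_num (r i)
      exact_mod_cast this
    rw [hc]
    push_cast
    linear_combination (2 * (Real.pi : ℂ) * Complex.I * c) * h10
  -- Vandermonde
  have hV : (Matrix.vandermonde fun i : Fin n => l i).det ≠ 0 := Matrix.det_vandermonde_ne_zero_iff.2 hinj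
  have hmul : E ^ N * (Matrix.vandermonde fun i : Fin n => l i)ᵀ = (Matrix.vandermonde fun i : Fin n => l i)ᵀ := by
    ext a i
    have h11 := congrFun (hpow i N) a
    rw [hone i, one_smul] at h11
    simpa [Matrix.mul_apply, Matrix.mulVec, dotProduct, Matrix.vandermonde, nu] using h11
  have hu : IsUnit ((Matrix.vandermonde fun i : Fin n => l i)ᵀ).det := by
    rw [Matrix.det_transpose]
    exact isUnit_iff_ne_zero.2 hV
  calc E ^ N = E ^ N * ((Matrix.vandermonde fun i : Fin n => l i)ᵀ * ((Matrix.vandermonde fun i : Fin n => l i)ᵀ)⁻¹) := by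
        rw [Matrix.mul_nonsing_inv _ hu, Matrix.mul_one]
    _ = 1 := by rw [← Matrix.mul_assoc, hmul, Matrix.mul_nonsing_inv _ hu]

theorem tn1' : S_TN1 := tn1 Pool.Agent.N530.HG.exx

end Pool.Agent.N40.HG
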